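import Mathlib
import Pool.Agent.H443R3.FC.Main

set_option autoImplicit false

open MeasureTheory ProbabilityTheory Filter Topology
open scoped ENNReal Nat

namespace Pool.Agent.Results.MP_9e03f2_pr.SuperexpColouring

open Pool.Agent.H443R3.FC

/-- **Finitary finitely dependent colourings with superexponentially decaying coding radius.**
For every `d ≥ 1` there are a standard Borel label space `T`, a probability measure `τ` on it and a
measurable map `F` from label configurations on `ℤ^d` to colourings with `8^d` colours, commuting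
with all translations, such that for i.i.d. labels `y` with law `τ`:
* almost surely `F y` is a proper colouring of `ℤ^d`;
* the random field `F y` is 1-dependent;
* the coding radius `R` of `F` is almost surely finite;
* `P(R > r) ≤ 2d / (r+2)!` for every `r`;
* hence `P(R > r) ≤ exp(-C r)` for all large `r`, whatever `C` is
  (that is, `(1/r) log P(R > r) → -∞`). -/
theorem result (d : ℕ) (hd : 1 ≤ d) :
    ∃ (T : Type) (_ : MeasurableSpace T) (_ : StandardBorelSpace T) (τ : Measure T)
      (_ : IsProbabilityMeasure τ)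
      (F : ((Fin d → ℤ) → T) → ((Fin d → ℤ) → Fin (8 ^ d))),
      Measurable F ∧ Equivariant F ∧
      (∀ᵐ y ∂(Measure.infinitePi fun _ : Fin d → ℤ => τ),
        ∀ u v, norm1 (u - v) = 1 → F y u ≠ F y v) ∧
      KDependent 1 (Measure.infinitePi fun _ : Fin d → ℤ => τ) (fun v y => F y v) ∧
      (∀ᵐ y ∂(Measure.infinitePi fun _ : Fin d → ℤ => τ), codingRadius F y ≠ ⊤) ∧
      (∀ r : ℕ, Measure.infinitePi (fun _ : Fin d → ℤ => τ) {y | (r : ℕ∞) < codingRadius F y} ≤
        (d : ℝ≥0∞) * (2 / ((r + 2)! : ℝ≥0∞))) ∧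
      ∀ C : ℝ, ∀ᶠ r : ℕ in atTop,
        Measure.infinitePi (fun _ : Fin d → ℤ => τ) {y | (r : ℕ∞) < codingRadius F y} ≤
          ENNReal.ofReal (Real.exp (-C * r)) := by
  obtain ⟨n, rfl⟩ : ∃ n, d = n + 1 := ⟨d - 1, by omega⟩
  obtain ⟨F, hF, hE, hP, hK, hR⟩ := main_aux n
  refine ⟨Lab (n + 1), inferInstance, inferInstance, labM (n + 1), inferInstance, F, hF, hE, hP,
    hK, ?_, hR, ?_⟩
  · rw [ae_iff]
    have h0 : Tendsto (fun r : ℕ => ((n + 1 : ℕ) : ℝ≥0∞) * (2 / ((r + 2)! : ℝ≥0∞))) atTop
        (𝓝 (((n + 1 : ℕ) : ℝ≥0∞) * 0)) :=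
      ENNReal.Tendsto.const_mul tendsto_bound (Or.inr (ENNReal.natCast_ne_top _))
    rw [mul_zero] at h0
    refine le_antisymm (ge_of_tendsto' h0 fun r => ?_) (by simp)
    refine le_trans (measure_mono ?_) (hR r)
    intro y hy
    have hy' : codingRadius F y = ⊤ := by simpa using hy
    show (r : ℕ∞) < codingRadius F y
    rw [hy']
    exact ENat.natCast_lt_top r
  · intro C
    filter_upwards [superexp (n + 1) C] with r hr
    exact le_trans (hR r) hr

end Pool.Agent.Results.MP_9e03f2_pr.SuperexpColouring
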